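import Pool.Agent.X23.L3.Stm

set_option autoImplicit false

namespace Pool.Agent.X43.L3

open Pool.Agent.X23.L3 Set

theorem t_VIS : S_VIS := by
  classical
  intro n X q R i j hi hVi hVj hcl
  by_contra hj
  let z : ℝ → Fin 3 → ℝ := fun t => X.y i + t • (X.y j - X.y i)
  let F : Fin n → ℝ → ℝ := fun k t =>
    X.b k - (X.a k ⬝ᵥ X.y i + t * (X.a k ⬝ᵥ X.y j - X.a k ⬝ᵥ X.y i))
  let G : Fin n → ℝ → ℝ := fun k t =>
    X.a k ⬝ᵥ q - (X.a k ⬝ᵥ X.y i + t * (X.a k ⬝ᵥ X.y j - X.a k ⬝ᵥ X.y i))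
  have hz : ∀ k t, X.a k ⬝ᵥ z t =
      X.a k ⬝ᵥ X.y i + t * (X.a k ⬝ᵥ X.y j - X.a k ⬝ᵥ X.y i) := by
    intro k t
    show X.a k ⬝ᵥ (X.y i + t • (X.y j - X.y i)) = _
    rw [dotProduct_add, dotProduct_smul, dotProduct_sub, smul_eq_mul]
  have hle : ∀ k m, X.a k ⬝ᵥ X.y m ≤ X.b k := by
    intro k m
    by_cases h : k = m
    · subst h; exact (X.hy k).le
    · exact (X.hy2 m k h).le
  have hF : ∀ k t, 0 ≤ t → t ≤ 1 → 0 ≤ F k t := by
    intro k t h0 h1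
    show 0 ≤ X.b k - (X.a k ⬝ᵥ X.y i + t * (X.a k ⬝ᵥ X.y j - X.a k ⬝ᵥ X.y i))
    have e1 := mul_nonneg h0 (sub_nonneg.2 (hle k j))
    have e2 := mul_nonneg (sub_nonneg.2 h1) (sub_nonneg.2 (hle k i))
    nlinarith
  have hG : ∀ k t, X.b k < X.a k ⬝ᵥ q → 0 ≤ t → t ≤ 1 → F k t < G k t := by
    intro k t hV _ _
    show X.b k - _ < X.a k ⬝ᵥ q - _
    linarith
  have hG0 : ∀ k t, X.b k < X.a k ⬝ᵥ q → 0 ≤ t → t ≤ 1 → 0 < G k t := fun k t hV h0 h1 =>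
    lt_of_le_of_lt (hF k t h0 h1) (hG k t hV h0 h1)
  have hcF : ∀ k, Continuous (F k) := by
    intro k
    show Continuous fun t : ℝ =>
      X.b k - (X.a k ⬝ᵥ X.y i + t * (X.a k ⬝ᵥ X.y j - X.a k ⬝ᵥ X.y i))
    fun_prop
  have hcG : ∀ k, Continuous (G k) := by
    intro k
    show Continuous fun t : ℝ =>
      X.a k ⬝ᵥ q - (X.a k ⬝ᵥ X.y i + t * (X.a k ⬝ᵥ X.y j - X.a k ⬝ᵥ X.y i))
    fun_prop
  let C : Fin n → Set ℝ := fun k =>
    {t | ∀ l, X.b l < X.a l ⬝ᵥ q → F k t * G l t ≤ F l t * G k t}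
  have hC : ∀ k, IsClosed (C k) := by
    intro k
    have : C k = ⋂ l, ⋂ (_ : X.b l < X.a l ⬝ᵥ q), {t | F k t * G l t ≤ F l t * G k t} := by
      ext t
      simp [C]
    rw [this]
    refine isClosed_iInter fun l => isClosed_iInter fun _ => ?_
    exact isClosed_le ((hcF k).mul (hcG l)) ((hcF l).mul (hcG k))
  let A : Set ℝ := ⋃ k ∈ {k : Fin n | X.b k < X.a k ⬝ᵥ q ∧ k ∈ R}, C k
  let B : Set ℝ := ⋃ k ∈ {k : Fin n | X.b k < X.a k ⬝ᵥ q ∧ k ∉ R}, C k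
  have hA : IsClosed A := (Set.toFinite _).isClosed_biUnion (fun k _ => hC k)
  have hB : IsClosed B := (Set.toFinite _).isClosed_biUnion (fun k _ => hC k)
  have hcov : Icc (0:ℝ) 1 ⊆ A ∪ B := by
    rintro t ⟨h0, h1⟩
    obtain ⟨k, hk, hmin⟩ := Finset.exists_min_image
      (Finset.univ.filter fun k : Fin n => X.b k < X.a k ⬝ᵥ q) (fun k => F k t / G k t)
      ⟨i, by simp [hVi]⟩
    have hVk : X.b k < X.a k ⬝ᵥ q := by simpa using hk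
    have hkC : t ∈ C k := by
      intro l hl
      have := hmin l (by simp [hl])
      rw [div_le_div_iff₀ (hG0 k t hVk h0 h1) (hG0 l t hl h0 h1)] at this
      exact this
    by_cases hR : k ∈ R
    · exact Or.inl (Set.mem_biUnion (x := k) ⟨hVk, hR⟩ hkC)
    · exact Or.inr (Set.mem_biUnion (x := k) ⟨hVk, hR⟩ hkC)
  have h0A : (Icc (0:ℝ) 1 ∩ A).Nonempty := by
    refine ⟨0, ⟨le_refl _, zero_le_one⟩, Set.mem_biUnion (x := i) ⟨hVi, hi⟩ ?_⟩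
    intro l hl
    have e1 : F i 0 = 0 := by
      show X.b i - (X.a i ⬝ᵥ X.y i + 0 * _) = 0
      rw [X.hy i]; ring
    rw [e1, zero_mul]
    exact mul_nonneg (hF l 0 le_rfl zero_le_one) (hG0 i 0 hVi le_rfl zero_le_one).le
  have h1B : (Icc (0:ℝ) 1 ∩ B).Nonempty := by
    refine ⟨1, ⟨zero_le_one, le_refl _⟩, Set.mem_biUnion (x := j) ⟨hVj, hj⟩ ?_⟩
    intro l hl
    have e1 : F j 1 = 0 := by
      show X.b j - (X.a j ⬝ᵥ X.y i + 1 * (X.a j ⬝ᵥ X.y j - X.a j ⬝ᵥ X.y i)) = 0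
      rw [X.hy j]; ring
    rw [e1, zero_mul]
    exact mul_nonneg (hF l 1 zero_le_one le_rfl) (hG0 j 1 hVj zero_le_one le_rfl).le
  obtain ⟨t, ⟨h0, h1⟩, htA, htB⟩ :=
    isPreconnected_closed_iff.1 isPreconnected_Icc A B hA hB hcov h0A h1B
  obtain ⟨k, ⟨hVk, hkR⟩, htk⟩ := Set.mem_iUnion₂.1 htA
  obtain ⟨l, ⟨hVl, hlR⟩, htl⟩ := Set.mem_iUnion₂.1 htB
  apply hlR
  refine hcl k hkR l hVk hVl ?_
  -- the common point
  have hgk := hG0 k t hVk h0 h1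
  have hgl := hG0 l t hVl h0 h1
  have heq : F k t * G l t = F l t * G k t := le_antisymm (htk l hVl) (htl k hVk)
  set τ : ℝ := F k t / G k t with hτ
  have hτ0 : 0 ≤ τ := div_nonneg (hF k t h0 h1) hgk.le
  have hτ1 : τ < 1 := (div_lt_one hgk).2 (hG k t hVk h0 h1)
  have hpt : ∀ m, X.a m ⬝ᵥ (z t + τ • (q - z t)) = X.b m - F m t + τ * G m t := by
    intro m
    rw [dotProduct_add, dotProduct_smul, dotProduct_sub, smul_eq_mul, hz]
    show _ = X.b m - (X.b m - (X.a m ⬝ᵥ X.y i + t * (X.a m ⬝ᵥ X.y j - X.a m ⬝ᵥ X.y i))) +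
      τ * (X.a m ⬝ᵥ q - (X.a m ⬝ᵥ X.y i + t * (X.a m ⬝ᵥ X.y j - X.a m ⬝ᵥ X.y i)))
    ring
  refine ⟨z t + τ • (q - z t), ?_, ?_, ?_⟩
  · intro m
    rw [hpt m]
    by_cases hVm : X.b m < X.a m ⬝ᵥ q
    · have h2 := htk m hVm
      have h3 : τ * G m t ≤ F m t := by
        rw [hτ, div_mul_eq_mul_div, div_le_iff₀ hgk]
        exact h2
      linarith
    · have h2 : G m t ≤ F m t := by
        show X.a m ⬝ᵥ q - _ ≤ X.b m - _
        linarith [not_lt.1 hVm]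
      have h3 := hF m t h0 h1
      have h4 : τ * G m t ≤ τ * F m t := mul_le_mul_of_nonneg_left h2 hτ0
      have h5 : τ * F m t ≤ 1 * F m t := mul_le_mul_of_nonneg_right hτ1.le h3
      linarith
  · rw [hpt k, hτ, div_mul_cancel₀ _ hgk.ne']
    ring
  · rw [hpt l]
    have : τ * G l t = F l t := by
      rw [hτ, div_mul_eq_mul_div, heq, mul_div_assoc, div_self hgk.ne', mul_one]
    rw [this]
    ring

end Pool.Agent.X43.L3
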